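import Pool.Agent.W8.LS.Stm

namespace Pool.Agent.W766.LS
open Pool.Agent.W8.LS
open scoped Topology ContDiff
open Complex (I)

noncomputable section

/-- linear part of `act` -/
def lin (e k : ℤ) : V →ₗ[ℝ] V where
  toFun P := (P.1 - 2 * k * P.2.2.1.im, P.2.1, (e : ℂ) * P.2.2.1,
    (e : ℂ) * (P.2.2.2 - ((2 * k * P.2.1 : ℝ) : ℂ) * I))
  map_add' P Q := by
    refine Prod.ext ?_ (Prod.ext ?_ (Prod.ext ?_ ?_))
    · simp; ring
    · simp
    · simp; ring
    · simp; ring
  map_smul' c P := by
    refine Prod.ext ?_ (Prod.ext ?_ (Prod.ext ?_ ?_))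
    · simp; ring
    · simp
    · simp; ring
    · simp; ring

def clin (e k : ℤ) : V →L[ℝ] V := LinearMap.toContinuousLinearMap (lin e k)

theorem act_eq (e k l a n m r : ℤ) :
    act e k l a n m r = fun P => clin e k P +
      ((a : ℝ), (n : ℝ), (e : ℂ) * ((k : ℂ) + l * I),
        (e : ℂ) * ((m : ℂ) - ((√2 * m + 2 * r : ℝ) : ℂ) * I)) := by
  funext P
  refine Prod.ext ?_ (Prod.ext ?_ (Prod.ext ?_ ?_))
  · simp [act, clin, lin]
  · simp [act, clin, lin]
  · simp [act, clin, lin]; ring
  · simp [act, clin, lin]; ring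

theorem fderiv_act (e k l a n m r : ℤ) (x : V) :
    fderiv ℝ (act e k l a n m r) x = clin e k := by
  rw [act_eq]
  exact ((clin e k).hasFDerivAt.add_const _).fderiv

theorem om_clin (e k : ℤ) (he : e = 1 ∨ e = -1) (p q : V) :
    om (clin e k p) (clin e k q) = om p q := by
  rcases he with rfl | rfl
  · simp [om, clin, lin]; ring
  · simp [om, clin, lin]; ring

theorem ActSmooth_proof : ActSmooth := by
  intro e k l a n m r he
  refine ⟨?_, ?_⟩
  · rw [act_eq]
    exact (clin e k).contDiff.add contDiff_const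
  · intro x p q
    rw [fderiv_act]
    exact om_clin e k he p q

end

end Pool.Agent.W766.LS
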